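import Pool.Agent.helper7.ZE.Spec
import Pool.Agent.helper40.ZB.ZTK

/-!
# MP_baa4d7_al, THEOREM ZE, row NTK: transfer of unit classes to the type `N`
-/

set_option autoImplicit false

namespace Pool.Agent.NE.NY

open Pool.Agent.helper58.DC Pool.Agent.DI Pool.Agent.GR Pool.Agent.OB Pool.Agent.DR Pool.Agent.FI Pool.Agent.FI3 Pool.Agent.FI4 Pool.Agent.FI4I Pool.Agent.LE Pool.Agent.L5
open Pool.Agent.NAB hiding Ucl BE NUB_stmt NUD_stmt NUH_stmt NUE_stmt NUF_stmt NTK_stmt NXU_stmt NQU_stmt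
open Pool.Agent.ND hiding GS ZD XX PP ZGD_stmt ZNU_stmt GBC_stmt GUC_stmt GSP_stmt GIM_stmt GST_stmt GOS_stmt GS4_stmt GFX_stmt GAC_stmt GGR_stmt GOU_stmt GSY_stmt GVF_stmt GNV_stmt GDF_stmt GC1_stmt GEV_stmt GQQ_stmt GKQ_stmt TDC_stmt GKE_stmt GKD_stmt TDI_stmt TDL_stmt TDF_stmt NDQ_stmt
open Pool.Agent.ND.NY
open Pool.Agent.ZB (Pm Om KZ EQ BQ lQ MZc BDK)

/-- the class `KY` and the type `N` -/
theorem NTK_KY (hTR3 : TR3_stmt) (p e : ℕ) (m : Pm) {G : Type} [Group G] [Finite G] {N Q : Subgroup G} (hQ : Q ≤ N) :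
    KY p e m (Q.subgroupOf N) ↔ KY p e m Q := by
  obtain ⟨-, h32, -, -, -⟩ := hTR3 p G N
  constructor
  · rintro ⟨h1, h2, h3, h4, Z', hZ', h5, h6, h7, h8, h9, h10, z, hz, h11⟩
    have hZ1 : Z'.map N.subtype ≤ Q := by
      rintro _ ⟨z, hz, rfl⟩
      exact Subgroup.mem_subgroupOf.1 (hZ' hz)
    have hZ2 : (Z'.map N.subtype).subgroupOf N = Z' := Subgroup.comap_map_eq_self_of_injective N.subtype_injective Z'
    obtain ⟨g1, g2, g3, g4, g5⟩ := (Pool.Agent.ZB.ZTK_KZ hTR3 p hQ hZ1 m).1 (by rw [hZ2]; exact ⟨h5, h6, h7, h8, h9⟩)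
    refine ⟨h1, h2, h3, (h32 Q hQ).2.1 h4, Z'.map N.subtype, hZ1, g1, g2, g3, g4, g5, ?_, (z : G), ⟨z, hz, rfl⟩, ?_⟩
    · rintro _ ⟨y, hy, rfl⟩
      have := congrArg Subtype.val (h10 y hy)
      simpa using this
    · rw [Subgroup.orderOf_coe]
      exact h11
  · rintro ⟨h1, h2, h3, h4, Z, hZ, h5, h6, h7, h8, h9, h10, z, hz, h11⟩
    obtain ⟨g1, g2, g3, g4, g5⟩ := (Pool.Agent.ZB.ZTK_KZ hTR3 p hQ hZ m).2 ⟨h5, h6, h7, h8, h9⟩
    refine ⟨h1, h2, h3, (h32 Q hQ).2.2 h4, Z.subgroupOf N, (Pool.Agent.ZB.ZTK_le (hZ.trans hQ)).2 hZ, g1, g2, g3, g4, g5, ?_,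
      ⟨z, hQ (hZ hz)⟩, Subgroup.mem_subgroupOf.2 hz, ?_⟩
    · intro y hy
      apply Subtype.ext
      have := h10 (y : G) (Subgroup.mem_subgroupOf.1 hy)
      simpa using this
    · rw [← Subgroup.orderOf_coe]
      exact h11

theorem NTK_pow (p e k : ℕ) (hp : p.Prime) : k ≤ p ^ (e + k) := by
  have h1 : k < p ^ k := Nat.lt_pow_self hp.one_lt
  have h2 : p ^ k ≤ p ^ (e + k) := Nat.pow_le_pow_right hp.pos (by omega)
  omega

theorem NTK (hZTK : Pool.Agent.ZB.ZTK_stmt) (hNTK : Pool.Agent.NAB.NTK_stmt) (hTR3 : TR3_stmt) : NTK_stmt := by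
  intro p e m M hp G _ _ N H hHN η hη z x
  obtain ⟨hD, -, -⟩ := hZTK p m M hp G N
  set k : ℕ := max (pp p (Cz (H.subgroupOf N) (z * x))) (pp p (Cz H ((z : G) * (x : G)))) with hk
  have hn := hNTK p e k M G N H hHN η hη z x
  have hk1 : pp p (Cz (H.subgroupOf N) (z * x)) ≤ p ^ (e + k) := (le_max_left _ _).trans (NTK_pow p e k hp)
  have hk2 : pp p (Cz H ((z : G) * (x : G))) ≤ p ^ (e + k) := (le_max_right _ _).trans (NTK_pow p e k hp)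
  constructor
  · intro h
    have h' := hn.1 ⟨h.pe, h.re, h.co, h.zm, h.xm, h.od, h.ne, hk1⟩
    refine ⟨h'.pe, h'.re, h'.co, h'.zm, h'.xm, h'.od, h'.ne, ?_⟩
    obtain ⟨D', y, hdef, hky⟩ := h.df
    have hDN : D'.map N.subtype ≤ N := by
      rintro _ ⟨z, hz, rfl⟩
      exact z.2
    have hZ2 : (D'.map N.subtype).subgroupOf N = D' := Subgroup.comap_map_eq_self_of_injective N.subtype_injective D'
    refine ⟨D'.map N.subtype, (y : G), ?_, ?_⟩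
    · refine (hD H hHN η hη _ hDN y).1 ?_
      rw [hZ2]
      exact hdef
    · refine (NTK_KY hTR3 p e m hDN).1 ?_
      rw [hZ2]
      exact hky
  · intro h
    have h' := hn.2 ⟨h.pe, h.re, h.co, h.zm, h.xm, h.od, h.ne, hk2⟩
    refine ⟨h'.pe, h'.re, h'.co, h'.zm, h'.xm, h'.od, h'.ne, ?_⟩
    obtain ⟨D, y, hdef, hky⟩ := h.df
    have hDN : D ≤ N := by
      refine hdef.le.trans ?_
      intro g hg
      exact hHN hg.1
    refine ⟨D.subgroupOf N, ⟨y, hHN hdef.mem⟩, ?_, ?_⟩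
    · exact (hD H hHN η hη _ hDN ⟨y, hHN hdef.mem⟩).2 hdef
    · exact (NTK_KY hTR3 p e m hDN).2 hky

end Pool.Agent.NE.NY
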